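import Mathlib
import Pool.Agent.W682.TW.Stm

/-!
# Project TW, part RS: Rudin-Shapiro sign sequences
-/

set_option autoImplicit false

open Pool.Agent.W682.TW

namespace Pool.Agent.W253.TW.RS

/-- the exponential sum -/
noncomputable def P (p : ℕ → ℝ) (K : ℕ) (y : ℝ) : ℂ :=
  ∑ s ∈ Finset.range (2 ^ K), (p s : ℂ) * Complex.exp (((s * y : ℝ) : ℂ) * Complex.I)

/-- gluing -/
def gl (K : ℕ) (p q : ℕ → ℝ) (ε : ℝ) : ℕ → ℝ := fun s => if s < 2 ^ K then p s else ε * q (s - 2 ^ K)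

lemma P_succ (K : ℕ) (p q : ℕ → ℝ) (ε y : ℝ) :
    P (gl K p q ε) (K + 1) y =
      P p K y + ε * Complex.exp ((((2 : ℝ) ^ K * y : ℝ) : ℂ) * Complex.I) * P q K y := by
  unfold P
  rw [show (2 : ℕ) ^ (K + 1) = 2 ^ K + 2 ^ K by rw [pow_succ]; ring, Finset.sum_range_add,
    Finset.mul_sum]
  congr 1
  · apply Finset.sum_congr rfl
    intro s hs
    rw [Finset.mem_range] at hs
    simp [gl, hs]
  · apply Finset.sum_congr rfl
    intro s _
    have h1 : ¬ (2 ^ K + s < 2 ^ K) := by omega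
    simp only [gl, if_neg h1, Nat.add_sub_cancel_left]
    have h2 : Complex.exp (((((2 ^ K + s : ℕ) : ℝ) * y : ℝ) : ℂ) * Complex.I) =
        Complex.exp ((((2 : ℝ) ^ K * y : ℝ) : ℂ) * Complex.I) *
          Complex.exp (((s * y : ℝ) : ℂ) * Complex.I) := by
      rw [← Complex.exp_add]
      congr 1
      push_cast
      ring
    rw [h2]
    push_cast
    ring

lemma key (K : ℕ) : ∃ p q : ℕ → ℝ, Sgn p ∧ Sgn q ∧
    ∀ y : ℝ, ‖P p K y‖ ^ 2 + ‖P q K y‖ ^ 2 = 2 * 2 ^ K := by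
  induction K with
  | zero =>
    refine ⟨fun _ => 1, fun _ => 1, fun s => Or.inl rfl, fun s => Or.inl rfl, fun y => ?_⟩
    simp [P]
    norm_num
  | succ K ih =>
    obtain ⟨p, q, hp, hq, h⟩ := ih
    have hs : ∀ ε : ℝ, (ε = 1 ∨ ε = -1) → Sgn (gl K p q ε) := by
      intro ε hε s
      unfold gl
      split_ifs with h1
      · exact hp s
      · rcases hε with rfl | rfl <;> rcases hq (s - 2 ^ K) with h2 | h2 <;> rw [h2] <;> norm_num
    refine ⟨gl K p q 1, gl K p q (-1), hs 1 (Or.inl rfl), hs (-1) (Or.inr rfl), fun y => ?_⟩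
    rw [P_succ, P_succ]
    have hpar := parallelogram_law_with_norm ℝ (P p K y)
      (Complex.exp ((((2 : ℝ) ^ K * y : ℝ) : ℂ) * Complex.I) * P q K y)
    have hn : ‖Complex.exp ((((2 : ℝ) ^ K * y : ℝ) : ℂ) * Complex.I) * P q K y‖ = ‖P q K y‖ := by
      rw [norm_mul, Complex.norm_exp_ofReal_mul_I, one_mul]
    rw [hn] at hpar
    have e1 : P p K y + ((1 : ℝ) : ℂ) * Complex.exp ((((2 : ℝ) ^ K * y : ℝ) : ℂ) * Complex.I) *
        P q K y = P p K y + Complex.exp ((((2 : ℝ) ^ K * y : ℝ) : ℂ) * Complex.I) * P q K y := by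
      push_cast; ring
    have e2 : P p K y + ((-1 : ℝ) : ℂ) * Complex.exp ((((2 : ℝ) ^ K * y : ℝ) : ℂ) * Complex.I) *
        P q K y = P p K y - Complex.exp ((((2 : ℝ) ^ K * y : ℝ) : ℂ) * Complex.I) * P q K y := by
      push_cast; ring
    rw [e1, e2, pow_succ]
    have := h y
    linear_combination hpar + 2 * this

theorem main : S_RS := by
  intro K
  obtain ⟨p, q, hp, hq, h⟩ := key K
  refine ⟨p, hp, fun φ y => ?_⟩
  have h1 : ∑ s ∈ Finset.range (2 ^ K), p s * Real.cos (φ + s * y) =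
      (Complex.exp ((φ : ℂ) * Complex.I) * P p K y).re := by
    unfold P
    rw [Finset.mul_sum, Complex.re_sum]
    apply Finset.sum_congr rfl
    intro s _
    have e : Complex.exp ((φ : ℂ) * Complex.I) * ((p s : ℂ) *
        Complex.exp (((s * y : ℝ) : ℂ) * Complex.I)) =
        (p s : ℂ) * Complex.exp (((φ + s * y : ℝ) : ℂ) * Complex.I) := by
      rw [mul_left_comm, ← Complex.exp_add]
      congr 2
      push_cast
      ring
    rw [e, Complex.re_ofReal_mul, Complex.exp_ofReal_mul_I_re]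
  have h2 : |∑ s ∈ Finset.range (2 ^ K), p s * Real.cos (φ + s * y)| ≤ ‖P p K y‖ := by
    rw [h1]
    refine (Complex.abs_re_le_norm _).trans ?_
    rw [norm_mul, Complex.norm_exp_ofReal_mul_I, one_mul]
  have h3 := h y
  have h4 : (∑ s ∈ Finset.range (2 ^ K), p s * Real.cos (φ + s * y)) ^ 2 ≤ ‖P p K y‖ ^ 2 := by
    rw [← sq_abs (∑ s ∈ Finset.range (2 ^ K), p s * Real.cos (φ + s * y))]
    exact pow_le_pow_left₀ (abs_nonneg _) h2 2
  have h5 : 0 ≤ ‖P q K y‖ ^ 2 := by positivity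
  linarith

end Pool.Agent.W253.TW.RS
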